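import Pool.Agent.Helper95.FL.Stmts2

/-! Project XT: piece A-2. -/

set_option autoImplicit false

namespace Pool.Agent.Helper28.FL

open Pool.Agent.Helper95.FL
open scoped Classical

section walks

variable {V : Type} {φ : V → V → ℤ}

section fin

variable [Fintype V]

/-- sum of the positive parts -/
noncomputable def posSum (φ : V → V → ℤ) : ℤ := ∑ v, ∑ w, max (φ v w) 0

theorem exists_next (hanti : ∀ v w, φ w v = -φ v w) (hrow : ∀ v, ∑ w, φ v w = 0) {a b : V}
    (h : 0 < φ a b) : ∃ c, 0 < φ b c := by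
  by_contra hcon
  push Not at hcon
  have h1 : ∑ w, φ b w < ∑ _w : V, (0 : ℤ) := by
    refine Finset.sum_lt_sum (fun w _ => hcon w) ⟨a, Finset.mem_univ a, ?_⟩
    rw [hanti a b]; linarith
  rw [hrow b] at h1
  simp at h1

theorem exists_walk (hanti : ∀ v w, φ w v = -φ v w) (hrow : ∀ v, ∑ w, φ v w = 0)
    (hne : ∃ a b, φ a b ≠ 0) : ∃ u : ℕ → V, ∀ k, 0 < φ (u k) (u (k + 1)) := by
  obtain ⟨a, b, hab⟩ := hne
  have h0 : ∃ p : V × V, 0 < φ p.1 p.2 := by
    rcases lt_or_gt_of_ne hab with h | h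
    · exact ⟨(b, a), by show 0 < φ b a; rw [hanti a b]; linarith⟩
    · exact ⟨(a, b), h⟩
  obtain ⟨p0, hp0⟩ := h0
  choose nx hnx using fun p : {p : V × V // 0 < φ p.1 p.2} => exists_next hanti hrow p.2
  let st : {p : V × V // 0 < φ p.1 p.2} → {p : V × V // 0 < φ p.1 p.2} :=
    fun p => ⟨(p.1.2, nx p), hnx p⟩
  refine ⟨fun k => (st^[k] ⟨p0, hp0⟩).1.1, fun k => ?_⟩
  have h1 : (st^[k + 1] ⟨p0, hp0⟩).1.1 = (st^[k] ⟨p0, hp0⟩).1.2 := by
    rw [Function.iterate_succ_apply']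
  show 0 < φ (st^[k] ⟨p0, hp0⟩).1.1 (st^[k + 1] ⟨p0, hp0⟩).1.1
  rw [h1]
  exact (st^[k] ⟨p0, hp0⟩).2

theorem le_posSum {u : ℕ → V} (hu : ∀ k, 0 < φ (u k) (u (k + 1))) (m : ℕ)
    (hinj : ∀ i < m, ∀ j < m, i < j → u i ≠ u j) : (m : ℤ) ≤ posSum φ := by
  have h1 : Set.InjOn u (Finset.range m : Set ℕ) := by
    intro i hi j hj hij
    rw [Finset.coe_range] at hi hj
    rcases lt_trichotomy i j with h | h | h
    · exact absurd hij (hinj i hi j hj h)
    · exact h
    · exact absurd hij.symm (hinj j hj i hi h)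
  have hnn : ∀ v : V, 0 ≤ ∑ w, max (φ v w) 0 := fun v =>
    Finset.sum_nonneg fun w _ => le_max_right _ _
  have h2 : ∑ v ∈ (Finset.range m).image u, ∑ w, max (φ v w) 0 ≤ posSum φ :=
    Finset.sum_le_sum_of_subset_of_nonneg (Finset.subset_univ _) (fun v _ _ => hnn v)
  rw [Finset.sum_image h1] at h2
  have h3 : ∑ _k ∈ Finset.range m, (1 : ℤ) ≤
      ∑ k ∈ Finset.range m, ∑ w, max (φ (u k) w) 0 := by
    refine Finset.sum_le_sum fun k _ => ?_
    have h4 : max (φ (u k) (u (k + 1))) 0 ≤ ∑ w, max (φ (u k) w) 0 :=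
      Finset.single_le_sum (f := fun w => max (φ (u k) w) 0) (fun w _ => le_max_right _ _)
        (Finset.mem_univ (u (k + 1)))
    have h5 := hu k
    have h6 := le_max_left (φ (u k) (u (k + 1))) 0
    omega
  rw [Finset.sum_const, Finset.card_range, nsmul_eq_mul, mul_one] at h3
  exact le_trans h3 h2

end fin

theorem ne_one (hanti : ∀ v w, φ w v = -φ v w) {u : ℕ → V}
    (hu : ∀ k, 0 < φ (u k) (u (k + 1))) (k : ℕ) : u k ≠ u (k + 1) := by
  intro h
  have h1 := hu k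
  rw [← h] at h1
  have h2 := hanti (u k) (u k)
  omega

theorem ne_two (hanti : ∀ v w, φ w v = -φ v w) {u : ℕ → V}
    (hu : ∀ k, 0 < φ (u k) (u (k + 1))) (k : ℕ) : u k ≠ u (k + 2) := by
  intro h
  have h1 := hu k
  have h2 : 0 < φ (u (k + 1)) (u (k + 2)) := hu (k + 1)
  rw [← h, hanti (u k) (u (k + 1))] at h2
  omega

theorem eq_zero_of_posSum_le_two [Fintype V] (hanti : ∀ v w, φ w v = -φ v w)
    (hrow : ∀ v, ∑ w, φ v w = 0) (h : posSum φ ≤ 2) : ∀ a b, φ a b = 0 := by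
  by_contra hcon
  push Not at hcon
  obtain ⟨u, hu⟩ := exists_walk hanti hrow hcon
  have h1 := le_posSum hu 3 (by
    intro i hi j hj hij
    have h2 : j = i + 1 ∨ j = i + 2 := by omega
    rcases h2 with rfl | rfl
    · exact ne_one hanti hu i
    · exact ne_two hanti hu i)
  push_cast at h1
  omega

theorem exists_cycle [Fintype V] (hanti : ∀ v w, φ w v = -φ v w) (hrow : ∀ v, ∑ w, φ v w = 0)
    (h : posSum φ ≤ 5) (hne : ∃ a b, φ a b ≠ 0) :
    ∃ (u : ℕ → V) (L : ℕ), (∀ k, 0 < φ (u k) (u (k + 1))) ∧ 3 ≤ L ∧ L ≤ 5 ∧ u L = u 0 := by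
  obtain ⟨u, hu⟩ := exists_walk hanti hrow hne
  by_contra hcon
  push Not at hcon
  have h1 := le_posSum hu 6 (by
    intro i hi j hj hij
    have h2 : j = i + 1 ∨ j = i + 2 ∨ ∃ L, 3 ≤ L ∧ L ≤ 5 ∧ j = i + L := by
      by_cases h3 : j = i + 1
      · exact Or.inl h3
      · by_cases h4 : j = i + 2
        · exact Or.inr (Or.inl h4)
        · exact Or.inr (Or.inr ⟨j - i, by omega, by omega, by omega⟩)
    rcases h2 with rfl | rfl | ⟨L, hL, hL', rfl⟩
    · exact ne_one hanti hu i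
    · exact ne_two hanti hu i
    · exact fun h5 => hcon (fun k => u (i + k)) L (fun k => hu (i + k)) hL hL' h5.symm)
  push_cast at h1
  omega

/-- the number of times the cycle passes from `a` to `b` -/
noncomputable def cnt (u : ℕ → V) (L : ℕ) (a b : V) : ℤ :=
  ∑ k ∈ Finset.range L, if u k = a ∧ u (k + 1) = b then (1 : ℤ) else 0

theorem cycle_inj (hanti : ∀ v w, φ w v = -φ v w) {u : ℕ → V} {L : ℕ}
    (hu : ∀ k, 0 < φ (u k) (u (k + 1))) (hL : 3 ≤ L) (hL' : L ≤ 5) (hc : u L = u 0) :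
    ∀ i < L, ∀ j < L, i < j → u i ≠ u j := by
  -- the closed walk read after the point `L`
  have a1 : ∀ k, u k ≠ u (k + 1) := ne_one hanti hu
  have a2 : ∀ k, u k ≠ u (k + 2) := ne_two hanti hu
  have a3 : u (L - 1) ≠ u 1 := by
    intro h
    have h1 := hu (L - 1)
    rw [Nat.sub_add_cancel (by omega : 1 ≤ L), hc, h, hanti (u 0) (u 1)] at h1
    have h2 := hu 0
    rw [zero_add] at h2
    omega
  intro i hi j hj hij h
  have h2 : j = i + 1 ∨ j = i + 2 ∨ (L = 4 ∧ i = 0 ∧ j = 3) ∨ (L = 5 ∧ i = 0 ∧ j = 3) ∨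
      (L = 5 ∧ i = 1 ∧ j = 4) ∨ (L = 5 ∧ i = 0 ∧ j = 4) := by omega
  rcases h2 with rfl | rfl | ⟨rfl, rfl, rfl⟩ | ⟨rfl, rfl, rfl⟩ | ⟨rfl, rfl, rfl⟩ |
    ⟨rfl, rfl, rfl⟩
  · exact a1 i h
  · exact a2 i h
  · exact a1 3 (by rw [show 3 + 1 = 4 by rfl, hc]; exact h.symm)
  · exact a2 3 (by rw [show 3 + 2 = 5 by rfl, hc]; exact h.symm)
  · exact a3 h.symm
  · exact a1 4 (by rw [show 4 + 1 = 5 by rfl, hc]; exact h.symm)

theorem cnt_nonneg (u : ℕ → V) (L : ℕ) (a b : V) : 0 ≤ cnt u L a b :=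
  Finset.sum_nonneg fun k _ => by split_ifs <;> norm_num

theorem cnt_le_one {u : ℕ → V} {L : ℕ} (hinj : ∀ i < L, ∀ j < L, i < j → u i ≠ u j) (a b : V) :
    cnt u L a b ≤ 1 := by
  unfold cnt
  rw [Finset.sum_boole]
  have h1 : (Finset.filter (fun k => u k = a ∧ u (k + 1) = b) (Finset.range L)).card ≤ 1 := by
    rw [Finset.card_le_one]
    intro i hi j hj
    rw [Finset.mem_filter, Finset.mem_range] at hi hj
    rcases lt_trichotomy i j with h | h | h
    · exact absurd (hi.2.1.trans hj.2.1.symm) (hinj i hi.1 j hj.1 h)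
    · exact h
    · exact absurd (hj.2.1.trans hi.2.1.symm) (hinj j hj.1 i hi.1 h)
  exact_mod_cast h1

theorem cnt_pos_imp {u : ℕ → V} {L : ℕ} (hu : ∀ k, 0 < φ (u k) (u (k + 1))) (a b : V)
    (h : cnt u L a b ≠ 0) : 0 < φ a b := by
  obtain ⟨k, _, hk⟩ := Finset.exists_ne_zero_of_sum_ne_zero h
  by_cases h1 : u k = a ∧ u (k + 1) = b
  · have h2 := hu k
    rw [h1.1, h1.2] at h2
    exact h2
  · simp [h1] at hk

theorem sum_cnt [Fintype V] (u : ℕ → V) (L : ℕ) : ∑ a, ∑ b, cnt u L a b = L := by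
  have h1 : ∀ a, ∑ b, cnt u L a b = ∑ k ∈ Finset.range L, if u k = a then (1 : ℤ) else 0 := by
    intro a
    unfold cnt
    rw [Finset.sum_comm]
    refine Finset.sum_congr rfl fun k _ => ?_
    by_cases h : u k = a
    · simp [h]
    · simp [h]
  rw [Finset.sum_congr rfl fun a _ => h1 a, Finset.sum_comm]
  simp

theorem row_cnt [Fintype V] {u : ℕ → V} {L : ℕ} (hc : u L = u 0) (a : V) :
    ∑ b, (cnt u L a b - cnt u L b a) = 0 := by
  have h1 : ∑ b, cnt u L a b = ∑ k ∈ Finset.range L, if u k = a then (1 : ℤ) else 0 := by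
    unfold cnt
    rw [Finset.sum_comm]
    refine Finset.sum_congr rfl fun k _ => ?_
    by_cases h : u k = a
    · simp [h]
    · simp [h]
  have h2 : ∑ b, cnt u L b a = ∑ k ∈ Finset.range L, if u (k + 1) = a then (1 : ℤ) else 0 := by
    unfold cnt
    rw [Finset.sum_comm]
    refine Finset.sum_congr rfl fun k _ => ?_
    by_cases h : u (k + 1) = a
    · simp [h]
    · simp [h]
  rw [Finset.sum_sub_distrib, h1, h2]
  have h3 := Finset.sum_range_succ (fun k => if u k = a then (1 : ℤ) else 0) L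
  have h4 := Finset.sum_range_succ' (fun k => if u k = a then (1 : ℤ) else 0) L
  rw [h3] at h4
  rw [hc] at h4
  linarith

/-- subtracting the cycle leaves nothing -/
theorem eq_cnt [Fintype V] (hanti : ∀ v w, φ w v = -φ v w) (hrow : ∀ v, ∑ w, φ v w = 0)
    (h : posSum φ ≤ 5) {u : ℕ → V} {L : ℕ} (hu : ∀ k, 0 < φ (u k) (u (k + 1))) (hL : 3 ≤ L)
    (hL' : L ≤ 5) (hc : u L = u 0) (a b : V) : φ a b = cnt u L a b - cnt u L b a := by
  have hinj := cycle_inj hanti hu hL hL' hc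
  let ψ : V → V → ℤ := fun a b => φ a b - (cnt u L a b - cnt u L b a)
  have hψa : ∀ v w, ψ w v = -ψ v w := by
    intro v w
    show φ w v - (cnt u L w v - cnt u L v w) = -(φ v w - (cnt u L v w - cnt u L w v))
    rw [hanti v w]; ring
  have hψr : ∀ v, ∑ w, ψ v w = 0 := by
    intro v
    show ∑ w, (φ v w - (cnt u L v w - cnt u L w v)) = 0
    rw [Finset.sum_sub_distrib, hrow, row_cnt hc, sub_zero]
  have hpt : ∀ v w, max (ψ v w) 0 ≤ max (φ v w) 0 - cnt u L v w := by
    intro v w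
    have h1 := cnt_nonneg u L v w
    have h2 := cnt_le_one hinj v w
    have h3 := cnt_nonneg u L w v
    have h4 := cnt_le_one hinj w v
    have h5 := cnt_pos_imp (L := L) hu v w
    have h6 := cnt_pos_imp (L := L) hu w v
    have h7 := hanti v w
    show max (φ v w - (cnt u L v w - cnt u L w v)) 0 ≤ max (φ v w) 0 - cnt u L v w
    rw [h7] at h6
    generalize cnt u L v w = s at *
    generalize cnt u L w v = t at *
    generalize φ v w = y at *
    by_cases hs : s = 0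
    · by_cases ht : t = 0
      · rw [hs, ht]; simp
      · have := h6 ht
        have ht1 : t = 1 := by omega
        rw [hs, ht1]
        rw [max_eq_right (by omega), max_eq_right (by omega)]
        omega
    · have := h5 hs
      have hs1 : s = 1 := by omega
      have ht0 : t = 0 := by
        by_contra ht
        have := h6 ht
        omega
      rw [hs1, ht0, max_eq_left (by omega), max_eq_left (by omega)]
      omega
  have hsum : posSum ψ ≤ posSum φ - L := by
    have h1 : posSum ψ ≤ ∑ v, ∑ w, (max (φ v w) 0 - cnt u L v w) :=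
      Finset.sum_le_sum fun v _ => Finset.sum_le_sum fun w _ => hpt v w
    have h2 : ∑ v, ∑ w, (max (φ v w) 0 - cnt u L v w) = posSum φ - L := by
      rw [← sum_cnt u L]
      unfold posSum
      rw [← Finset.sum_sub_distrib]
      exact Finset.sum_congr rfl fun v _ => Finset.sum_sub_distrib _ _
    rw [h2] at h1
    exact h1
  have h3 : ψ a b = 0 := eq_zero_of_posSum_le_two hψa hψr (by
    have : (3 : ℤ) ≤ L := by exact_mod_cast hL
    omega) a b
  have h4 : φ a b - (cnt u L a b - cnt u L b a) = 0 := h3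
  linarith

end walks

/-! ### Forms on a complex -/

variable {X V : Type}

theorem fin3_two (s : Fin 3) : s + 2 = s + 1 + 1 := by
  revert s; decide

theorem edge_ty (𝒞 : Cx X V) {v w : V} (h : 𝒞.IsEdge (v, w)) : 𝒞.ty w = 𝒞.ty v + 1 := by
  obtain ⟨s, x, he⟩ := h
  have h1 : 𝒞.vert (s + 1) x = v := congrArg Prod.fst he
  have h2 : 𝒞.vert (s + 2) x = w := congrArg Prod.snd he
  rw [← h1, ← h2, 𝒞.ty_vert, 𝒞.ty_vert]
  exact fin3_two s

theorem fin3_ne (a : Fin 3) : a + 1 ≠ a := by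
  revert a; decide

theorem fin3_ne2 (a : Fin 3) : a ≠ a + 1 + 1 := by
  revert a; decide

theorem fin3_cases (a b : Fin 3) (h : a ≠ b) : b = a + 1 ∨ a = b + 1 := by
  revert a b; decide

theorem edge_adj (𝒞 : Cx X V) {v w : V} (h : 𝒞.IsEdge (v, w)) : 𝒞.Adj v w := by
  have ht := edge_ty 𝒞 h
  obtain ⟨s, x, he⟩ := h
  have h1 : 𝒞.vert (s + 1) x = v := congrArg Prod.fst he
  have h2 : 𝒞.vert (s + 2) x = w := congrArg Prod.snd he
  refine ⟨fun h => fin3_ne (𝒞.ty v) (by rw [← ht]; exact h.symm), x, ?_, ?_⟩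
  · rw [← h1, 𝒞.ty_vert]
  · rw [← h2, 𝒞.ty_vert]

theorem adj_symm (𝒞 : Cx X V) {v w : V} (h : 𝒞.Adj v w) : 𝒞.Adj w v := by
  obtain ⟨h1, x, h2, h3⟩ := h
  exact ⟨h1.symm, x, h3, h2⟩

theorem el_anti (𝒞 : Cx X V) {v w : V} (h : 𝒞.ty v ≠ 𝒞.ty w) (a b : V) :
    𝒞.el v w (a, b) - 𝒞.el v w (b, a) =
      (if v = a ∧ w = b then (1 : ℤ) else 0) - (if v = b ∧ w = a then (1 : ℤ) else 0) := by
  unfold Cx.el
  simp only [Prod.mk.injEq]
  rcases fin3_cases _ _ h with h1 | h1
  · have h2 : ¬ 𝒞.ty v = 𝒞.ty w + 1 := by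
      rw [h1]; exact fin3_ne2 _
    simp only [h1, true_and]
    rw [h1] at h2
    simp only [h2, false_and, if_false, eq_comm]
  · have h2 : ¬ 𝒞.ty w = 𝒞.ty v + 1 := by
      rw [h1]; exact fin3_ne2 _
    simp only [h1, true_and]
    rw [h1] at h2
    simp only [h2, false_and, if_false]
    by_cases c1 : a = w ∧ b = v
    · obtain ⟨rfl, rfl⟩ := c1
      by_cases c2 : a = b
      · subst c2; simp
      · have c3 : ¬ b = a := fun h => c2 h.symm
        simp [c2, c3]
    · by_cases c2 : b = w ∧ a = v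
      · obtain ⟨rfl, rfl⟩ := c2
        by_cases c3 : a = b
        · subst c3; simp
        · have c4 : ¬ b = a := fun h => c3 h.symm
          simp [c3, c4]
      · have c3 : ¬ (v = a ∧ w = b) := fun h => c2 ⟨h.2.symm, h.1.symm⟩
        have c4 : ¬ (v = b ∧ w = a) := fun h => c1 ⟨h.2.symm, h.1.symm⟩
        simp only [c1, c2, c3, c4, if_false]

theorem el_supp (𝒞 : Cx X V) {v w a b : V} (h : 𝒞.el v w (a, b) ≠ 0) :
    𝒞.ty b = 𝒞.ty a + 1 := by
  unfold Cx.el at h
  simp only [Prod.mk.injEq] at h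
  split_ifs at h with h1 h2
  · rw [h1.2.1, h1.2.2]; exact h1.1
  · rw [h2.2.1, h2.2.2]; exact h2.1
  · exact absurd rfl h

theorem stCycA : StCycA := by
  intro X V _ 𝒞 f hs hci hne h5
  let φ : V → V → ℤ := fun v w => f (v, w) - f (w, v)
  have hanti : ∀ v w, φ w v = -φ v w := fun v w => by
    show f (w, v) - f (v, w) = -(f (v, w) - f (w, v)); ring
  have hrow : ∀ v, ∑ w, φ v w = 0 := by
    intro v
    have h1 := hci v
    unfold dvg at h1
    show ∑ w, (f (v, w) - f (w, v)) = 0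
    rw [Finset.sum_sub_distrib]
    linarith
  have hty : ∀ a b, f (a, b) ≠ 0 → 𝒞.ty b = 𝒞.ty a + 1 := fun a b h => edge_ty 𝒞 (hs _ h)
  have hsum : posSum φ ≤ 5 := by
    have h1 : posSum φ ≤ ∑ v, ∑ w, (max (f (v, w)) 0 + max (-f (w, v)) 0) := by
      refine Finset.sum_le_sum fun v _ => Finset.sum_le_sum fun w _ => ?_
      show max (f (v, w) - f (w, v)) 0 ≤ _
      generalize f (v, w) = s
      generalize f (w, v) = t
      rcases le_total s 0 with h | h <;> rcases le_total t 0 with h' | h' <;>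
        rcases le_total (s - t) 0 with h'' | h'' <;>
        simp only [max_eq_left, max_eq_right, h, h', h'', neg_nonneg, neg_nonpos, neg_zero] <;>
        omega
    have h2 : ∑ v, ∑ w, (max (f (v, w)) 0 + max (-f (w, v)) 0) = ∑ e, |f e| := by
      simp only [Finset.sum_add_distrib]
      have h3 : ∑ v, ∑ w, max (-f (w, v)) 0 = ∑ v, ∑ w, max (-f (v, w)) 0 := Finset.sum_comm
      rw [h3, ← Finset.sum_add_distrib, Fintype.sum_prod_type]
      refine Finset.sum_congr rfl fun v _ => ?_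
      rw [← Finset.sum_add_distrib]
      refine Finset.sum_congr rfl fun w _ => ?_
      generalize f (v, w) = s
      rcases le_total s 0 with h | h
      · rw [max_eq_right h, max_eq_left (by omega), abs_of_nonpos h]; ring
      · rw [max_eq_left h, max_eq_right (by omega), abs_of_nonneg h]; ring
    rw [h2] at h1
    exact le_trans h1 h5
  have hex : ∃ a b, φ a b ≠ 0 := by
    have h1 : ∃ e, f e ≠ 0 := by
      by_contra hcon
      push Not at hcon
      exact hne (funext hcon)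
    obtain ⟨⟨a, b⟩, hab⟩ := h1
    refine ⟨a, b, ?_⟩
    have h2 : f (b, a) = 0 := by
      by_contra h3
      have h4 := hty a b hab
      have h6 := hty b a h3
      rw [h4] at h6
      exact fin3_ne2 _ h6
    show f (a, b) - f (b, a) ≠ 0
    rw [h2, sub_zero]; exact hab
  obtain ⟨u, L, hu, hL, hL', hc⟩ := exists_cycle hanti hrow hsum hex
  have hadj : ∀ k, 𝒞.Adj (u k) (u (k + 1)) := by
    intro k
    have h1 : 0 < f (u k, u (k + 1)) - f (u (k + 1), u k) := hu k
    by_cases h2 : f (u k, u (k + 1)) = 0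
    · have h3 : f (u (k + 1), u k) ≠ 0 := by
        intro h3; rw [h2, h3] at h1; omega
      exact adj_symm 𝒞 (edge_adj 𝒞 (hs _ h3))
    · exact edge_adj 𝒞 (hs _ h2)
  have hf : ∀ a b, f (a, b) = ∑ k ∈ Finset.range L, 𝒞.el (u k) (u (k + 1)) (a, b) := by
    intro a b
    have h1 : f (a, b) - f (b, a) = cnt u L a b - cnt u L b a :=
      eq_cnt hanti hrow hsum hu hL hL' hc a b
    have h2 : ∑ k ∈ Finset.range L, 𝒞.el (u k) (u (k + 1)) (a, b) -
        ∑ k ∈ Finset.range L, 𝒞.el (u k) (u (k + 1)) (b, a) = cnt u L a b - cnt u L b a := by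
      unfold cnt
      rw [← Finset.sum_sub_distrib, ← Finset.sum_sub_distrib]
      exact Finset.sum_congr rfl fun k _ => el_anti 𝒞 (hadj k).1 a b
    have h3 : ∀ a b, ¬ 𝒞.ty b = 𝒞.ty a + 1 →
        ∑ k ∈ Finset.range L, 𝒞.el (u k) (u (k + 1)) (a, b) = 0 := by
      intro a b h
      refine Finset.sum_eq_zero fun k _ => ?_
      by_contra h4
      exact h (el_supp 𝒞 h4)
    have h4 : ∀ a b, ¬ 𝒞.ty b = 𝒞.ty a + 1 → f (a, b) = 0 := by
      intro a b h
      by_contra h5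
      exact h (hty a b h5)
    by_cases h5 : 𝒞.ty b = 𝒞.ty a + 1
    · have h6 : ¬ 𝒞.ty a = 𝒞.ty b + 1 := by
        rw [h5]; exact fin3_ne2 _
      rw [h4 b a h6] at h1
      rw [h3 b a h6] at h2
      linarith
    · rw [h3 a b h5, h4 a b h5]
  have a1 := ne_one hanti hu
  have a2 := ne_two hanti hu
  have hLc : L = 3 ∨ L = 4 ∨ L = 5 := by omega
  rcases hLc with rfl | rfl | rfl
  · left
    refine ⟨u 0, u 1, u 2, ⟨hadj 0, hadj 1, ?_⟩, ?_⟩
    · have := hadj 2
      rwa [show 2 + 1 = 3 by rfl, hc] at this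
    · funext ⟨a, b⟩
      rw [hf a b]
      simp only [Finset.sum_range_succ, Finset.sum_range_zero, zero_add, Cx.cyc3, Pi.add_apply,
        Nat.reduceAdd, hc]
  · right; left
    refine ⟨u 0, u 1, u 2, u 3, ⟨a2 0, ?_, hadj 0, hadj 1, hadj 2, ?_⟩, ?_⟩
    · exact a2 1
    · have := hadj 3
      rwa [show 3 + 1 = 4 by rfl, hc] at this
    · funext ⟨a, b⟩
      rw [hf a b]
      simp only [Finset.sum_range_succ, Finset.sum_range_zero, zero_add, Cx.cyc4, Pi.add_apply,
        Nat.reduceAdd, hc]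
  · right; right
    have hinj := cycle_inj hanti hu hL hL' hc
    refine ⟨u 0, u 1, u 2, u 3, u 4, ⟨⟨a2 0, a2 1, a2 2, ?_, ?_⟩, hadj 0, hadj 1, hadj 2,
      hadj 3, ?_⟩, ?_⟩
    · exact (hinj 0 (by norm_num) 3 (by norm_num) (by norm_num)).symm
    · exact (hinj 1 (by norm_num) 4 (by norm_num) (by norm_num)).symm
    · have := hadj 4
      rwa [show 4 + 1 = 5 by rfl, hc] at this
    · funext ⟨a, b⟩
      rw [hf a b]
      simp only [Finset.sum_range_succ, Finset.sum_range_zero, zero_add, Cx.cyc5, Pi.add_apply,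
        Nat.reduceAdd, hc]

end Pool.Agent.Helper28.FL
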